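import Pool.Agent.H121.FL.Iface
import Pool.Agent.H717.Z987.Wien

/-!
# Eigenvectors as limits of the Green function (`S_eig` of helper121)
-/

set_option autoImplicit false

open scoped BigOperators InnerProductSpace Topology ENNReal
open Filter MeasureTheory

namespace Pool.Agent.H113.FL

open Pool.Agent.TH369.AN (Rz rz_eq rz_uniq rz_norm)
set_option linter.unusedSectionVars false

open Pool.Agent.TH369.MU (SpM ep zk qk)
open Pool.Agent.Y662.TR (LL dv inner_dv po_mass spm_mass qk_po)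
open Pool.Agent.H987.Z (Rs Gr)
open Pool.Agent.H717.Z987 (Fm Fm_atom ep_pos' ep_lim spm_Fm zk_im)

section gen

variable {X : Type} [NormedAddCommGroup X] [InnerProductSpace ℂ X] [CompleteSpace X]

/-- the eigenspace -/
noncomputable def EK (T : X →L[ℂ] X) (t : ℝ) : Submodule ℂ X := (T - (t : ℂ) • (1 : X →L[ℂ] X)).ker

lemma mem_EK (T : X →L[ℂ] X) (t : ℝ) (v : X) : v ∈ EK T t ↔ T v = (t : ℂ) • v := by
  unfold EK
  rw [LinearMap.mem_ker]
  simp [sub_eq_zero]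

lemma EK_closed (T : X →L[ℂ] X) (t : ℝ) : IsClosed (EK T t : Set X) :=
  (T - (t : ℂ) • (1 : X →L[ℂ] X)).isClosed_ker

noncomputable instance (T : X →L[ℂ] X) (t : ℝ) : CompleteSpace (EK T t) :=
  (EK_closed T t).completeSpace_coe

lemma zk_eq' (t : ℝ) (k : ℕ) : zk t k = (t : ℂ) + (ep k : ℂ) * Complex.I := rfl

lemma zk_im' (t : ℝ) (k : ℕ) : (zk t k).im = ep k := by
  rw [zk_eq']
  simp

/-- `-i ε (T - t - i ε)⁻¹ v` -/
noncomputable def W (T : X →L[ℂ] X) (t : ℝ) (v : X) (k : ℕ) : X :=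
  -(Complex.I * (ep k : ℂ)) • Rz T (zk t k) v

lemma W_le (T : X →L[ℂ] X) (hT : IsSelfAdjoint T) (t : ℝ) (v : X) (k : ℕ) : ‖W T t v k‖ ≤ ‖v‖ := by
  unfold W
  have h0 := ep_pos' k
  have h1 := rz_norm T hT (zk t k) (zk_im t k) v
  rw [zk_im', abs_of_pos h0, le_div_iff₀ h0] at h1
  rw [norm_smul, norm_neg, norm_mul, Complex.norm_I, one_mul, Complex.norm_real,
    Real.norm_of_nonneg h0.le, mul_comm]
  exact h1

lemma W_add (T : X →L[ℂ] X) (t : ℝ) (v w : X) (k : ℕ) : W T t (v + w) k = W T t v k + W T t w k := by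
  unfold W
  rw [map_add, smul_add]

lemma W_eig (T : X →L[ℂ] X) (hT : IsSelfAdjoint T) (t : ℝ) (v : X) (hv : T v = (t : ℂ) • v)
    (k : ℕ) : W T t v k = v := by
  have h0 : (ep k : ℂ) ≠ 0 := by exact_mod_cast (ep_pos' k).ne'
  have h1 : (-(Complex.I * (ep k : ℂ))) ≠ 0 := neg_ne_zero.mpr (mul_ne_zero Complex.I_ne_zero h0)
  have h2 := rz_uniq T hT (zk t k) (zk_im t k) ((-(Complex.I * (ep k : ℂ)))⁻¹ • v) v (by
    rw [map_smul, hv, zk_eq', smul_smul, smul_smul, ← sub_smul]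
    have : (-(Complex.I * (ep k : ℂ)))⁻¹ * (t : ℂ) -
        ((t : ℂ) + (ep k : ℂ) * Complex.I) * (-(Complex.I * (ep k : ℂ)))⁻¹ = 1 := by
      field_simp
      ring
    rw [this, one_smul])
  unfold W
  rw [← h2, smul_smul, mul_inv_cancel₀ h1, one_smul]

lemma W_rng (T : X →L[ℂ] X) (hT : IsSelfAdjoint T) (t : ℝ) (u : X) (k : ℕ) :
    ‖W T t (T u - (t : ℂ) • u) k‖ ≤ 2 * ep k * ‖u‖ := by
  have h0 := ep_pos' k
  have h2 := rz_uniq T hT (zk t k) (zk_im t k)
    (u + (Complex.I * (ep k : ℂ)) • Rz T (zk t k) u) (T u - (t : ℂ) • u) (by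
    have h3 := rz_eq T hT (zk t k) (zk_im t k) u
    have h4 : T (Rz T (zk t k) u) = u + zk t k • Rz T (zk t k) u := sub_eq_iff_eq_add.mp h3
    rw [map_add, map_smul, h4, zk_eq']
    module)
  have h5 : W T t (T u - (t : ℂ) • u) k =
      -(Complex.I * (ep k : ℂ)) • u - (Complex.I * (ep k : ℂ)) • -(W T t u k) := by
    unfold W
    rw [← h2]
    module
  rw [h5]
  have h6 : ‖-(Complex.I * (ep k : ℂ)) • u‖ = ep k * ‖u‖ := by
    rw [norm_smul, norm_neg, norm_mul, Complex.norm_I, one_mul, Complex.norm_real,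
      Real.norm_of_nonneg h0.le]
  have h7 : ‖(Complex.I * (ep k : ℂ)) • -(W T t u k)‖ ≤ ep k * ‖u‖ := by
    rw [norm_smul, norm_neg, norm_mul, Complex.norm_I, one_mul, Complex.norm_real,
      Real.norm_of_nonneg h0.le]
    exact mul_le_mul_of_nonneg_left (W_le T hT t u k) h0.le
  refine (norm_sub_le _ _).trans ?_
  rw [h6]
  linarith

lemma W_orth (T : X →L[ℂ] X) (hT : IsSelfAdjoint T) (t : ℝ) (v : X) (hv : v ∈ (EK T t)ᗮ) :
    Tendsto (W T t v) atTop (𝓝 0) := by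
  have h1 : (EK T t)ᗮ = ((T - (t : ℂ) • (1 : X →L[ℂ] X)).range).topologicalClosure := by
    unfold EK
    rw [ContinuousLinearMap.orthogonal_ker]
    congr 2
    rw [← ContinuousLinearMap.star_eq_adjoint, star_sub, star_smul, star_one, hT.star_eq]
    have hc : star ((t : ℝ) : ℂ) = ((t : ℝ) : ℂ) := Complex.conj_ofReal t
    rw [hc]
  rw [h1] at hv
  rw [Metric.tendsto_atTop]
  intro η hη
  obtain ⟨w, hw, hw2⟩ := Metric.mem_closure_iff.mp hv (η / 2) (half_pos hη)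
  obtain ⟨u, rfl⟩ := hw
  have e : (T - (t : ℂ) • (1 : X →L[ℂ] X)) u = T u - (t : ℂ) • u := by simp
  have hlim : Tendsto (fun k => 2 * ep k * ‖u‖) atTop (𝓝 0) := by
    have := (ep_lim.const_mul 2).mul_const ‖u‖
    simpa using this
  obtain ⟨N, hN⟩ := (Metric.tendsto_atTop.mp hlim) (η / 2) (half_pos hη)
  refine ⟨N, fun k hk => ?_⟩
  have h2 := hN k hk
  rw [Real.dist_0_eq_abs, abs_of_nonneg (by have := ep_pos' k; positivity)] at h2
  have h3 : W T t v k = W T t (v - (T u - (t : ℂ) • u)) k + W T t (T u - (t : ℂ) • u) k := by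
    rw [← W_add, sub_add_cancel]
  rw [dist_zero_right, h3]
  have h4 := W_le T hT t (v - (T u - (t : ℂ) • u)) k
  have h5 := W_rng T hT t u k
  have h6 : ‖v - (T u - (t : ℂ) • u)‖ < η / 2 := by
    rw [← dist_eq_norm, ← e]
    exact hw2
  have h7 := norm_add_le (W T t (v - (T u - (t : ℂ) • u)) k) (W T t (T u - (t : ℂ) • u) k)
  linarith

/-- the projection to the eigenspace -/
noncomputable def PE (T : X →L[ℂ] X) (t : ℝ) (v : X) : X := (EK T t).starProjection v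

lemma PE_mem (T : X →L[ℂ] X) (t : ℝ) (v : X) : PE T t v ∈ EK T t :=
  Submodule.starProjection_apply_mem _ _

lemma PE_eig (T : X →L[ℂ] X) (t : ℝ) (v : X) : T (PE T t v) = (t : ℂ) • PE T t v :=
  (mem_EK _ _ _).mp (PE_mem T t v)

lemma PE_orth (T : X →L[ℂ] X) (t : ℝ) (v : X) : v - PE T t v ∈ (EK T t)ᗮ :=
  Submodule.sub_starProjection_mem_orthogonal v

lemma W_lim (T : X →L[ℂ] X) (hT : IsSelfAdjoint T) (t : ℝ) (v : X) :
    Tendsto (W T t v) atTop (𝓝 (PE T t v)) := by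
  have h1 := W_orth T hT t _ (PE_orth T t v)
  have h2 : W T t v = fun k => PE T t v + W T t (v - PE T t v) k := by
    funext k
    rw [← W_eig T hT t _ (PE_eig T t v) k, ← W_add, W_eig T hT t _ (PE_eig T t v) k,
      add_sub_cancel]
  rw [h2]
  simpa using h1.const_add (PE T t v)

lemma PE_norm (T : X →L[ℂ] X) (t : ℝ) (v : X) : ⟪v, PE T t v⟫_ℂ = ((‖PE T t v‖ ^ 2 : ℝ) : ℂ) := by
  have h1 : ⟪v - PE T t v, PE T t v⟫_ℂ = 0 :=
    (Submodule.mem_orthogonal' _ _).mp (PE_orth T t v) _ (PE_mem T t v)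
  rw [inner_sub_left, sub_eq_zero] at h1
  rw [h1, inner_self_eq_norm_sq_to_K]
  push_cast
  rfl

lemma eig_orth (T : X →L[ℂ] X) (hT : IsSelfAdjoint T) {s t : ℝ} (hst : s ≠ t) {u v : X}
    (hu : T u = (s : ℂ) • u) (hv : T v = (t : ℂ) • v) : ⟪u, v⟫_ℂ = 0 := by
  have h1 : ⟪T u, v⟫_ℂ = ⟪u, T v⟫_ℂ := by
    have := ContinuousLinearMap.adjoint_inner_left T v u
    rw [← ContinuousLinearMap.star_eq_adjoint, hT.star_eq] at this
    exact this
  rw [hu, hv, inner_smul_left, inner_smul_right, Complex.conj_ofReal] at h1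
  have h2 : ((s : ℂ) - t) * ⟪u, v⟫_ℂ = 0 := by rw [sub_mul, h1, sub_self]
  rcases mul_eq_zero.mp h2 with h | h
  · exact absurd (by exact_mod_cast sub_eq_zero.mp h) hst
  · exact h

/-- Pythagoras -/
lemma pyth (T : X →L[ℂ] X) (hT : IsSelfAdjoint T) (v : X) (F : Finset ℝ) :
    ‖v - ∑ t ∈ F, PE T t v‖ ^ 2 = ‖v‖ ^ 2 - ∑ t ∈ F, ‖PE T t v‖ ^ 2 := by
  have hs : ⟪v, ∑ t ∈ F, PE T t v⟫_ℂ = ((∑ t ∈ F, ‖PE T t v‖ ^ 2 : ℝ) : ℂ) := by
    rw [inner_sum]
    push_cast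
    refine Finset.sum_congr rfl fun t _ => ?_
    rw [PE_norm]
    push_cast
    rfl
  have hss : ⟪∑ t ∈ F, PE T t v, ∑ t ∈ F, PE T t v⟫_ℂ = ((∑ t ∈ F, ‖PE T t v‖ ^ 2 : ℝ) : ℂ) := by
    rw [sum_inner]
    push_cast
    refine Finset.sum_congr rfl fun t ht => ?_
    rw [inner_sum, Finset.sum_eq_single t]
    · rw [inner_self_eq_norm_sq_to_K]
      rfl
    · intro s _ hst
      exact eig_orth T hT (Ne.symm hst) (PE_eig T t v) (PE_eig T s v)
    · intro h
      exact absurd ht h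
  have h1 := @norm_sub_sq ℂ X _ _ _ v (∑ t ∈ F, PE T t v)
  rw [hs] at h1
  have h2 : ‖∑ t ∈ F, PE T t v‖ ^ 2 = ∑ t ∈ F, ‖PE T t v‖ ^ 2 := by
    have h3 := inner_self_eq_norm_sq_to_K (𝕜 := ℂ) (∑ t ∈ F, PE T t v)
    rw [hss] at h3
    have h4 := congrArg Complex.re h3
    simp only [Complex.ofReal_re] at h4
    rw [h4]
    have h5 : (((‖∑ t ∈ F, PE T t v‖ : ℝ) : ℂ) ^ 2).re = ‖∑ t ∈ F, PE T t v‖ ^ 2 := by
      rw [← Complex.ofReal_pow, Complex.ofReal_re]
    exact h5.symm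
  rw [h1, h2]
  simp only [RCLike.re_to_complex, Complex.ofReal_re]
  ring

/-- the total mass of a spectral measure -/
lemma mass (T : X →L[ℂ] X) (hT : IsSelfAdjoint T) (φ : X) (m : Measure ℝ) (hm : SpM T φ m) :
    m.real Set.univ = ‖φ‖ ^ 2 := by
  obtain ⟨m', hm', hu⟩ := spm_mass T hT φ
  have := hm.1
  have := hm'.1
  obtain ⟨-, h1⟩ := po_mass m (ep 0) (ep_pos' 0)
  obtain ⟨-, h2⟩ := po_mass m' (ep 0) (ep_pos' 0)
  have h3 : ∀ E, Pool.Agent.TH794.LL2.Po m E (ep 0) = Pool.Agent.TH794.LL2.Po m' E (ep 0) := by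
    intro E
    rw [← qk_po T hT φ m hm E 0, ← qk_po T hT φ m' hm' E 0]
  simp only [h3] at h1
  rw [h2] at h1
  have h4 := mul_left_cancel₀ Real.pi_pos.ne' h1
  rw [← h4, hu]

/-- the atoms are the squares of the norms of the projections -/
lemma atom (T : X →L[ℂ] X) (hT : IsSelfAdjoint T) (φ : X) (m : Measure ℝ) (hm : SpM T φ m) (t : ℝ) :
    ‖PE T t φ‖ ^ 2 = m.real {t} := by
  have := hm.1
  have h1 := Fm_atom m t
  have h2 := ((innerSL ℂ φ).continuous.tendsto _).comp (W_lim T hT t φ)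
  have h3 : (fun k => -(Complex.I * (ep k : ℂ)) * Fm m (ep k) t) =
      (innerSL ℂ φ) ∘ (W T t φ) := by
    funext k
    have h4 : ⟪φ, Rz T (zk t k) φ⟫_ℂ = Fm m (ep k) t := hm.2 _ (zk_im t k)
    rw [Function.comp_apply, innerSL_apply_apply, W, inner_smul_right, h4]
  rw [h3] at h1
  have h5 := tendsto_nhds_unique h1 h2
  rw [innerSL_apply_apply, PE_norm] at h5
  exact_mod_cast h5.symm

/-- completeness -/
lemma compl (T : X →L[ℂ] X) (hT : IsSelfAdjoint T) (φ : X) (m : Measure ℝ) (hm : SpM T φ m)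
    (A : Set ℝ) (hA : A.Countable) (h0 : m Aᶜ = 0) (δ : ℝ) (hδ : 0 < δ) :
    ∃ F : Finset ℝ, ‖φ - ∑ t ∈ F, PE T t φ‖ ^ 2 ≤ δ := by
  have := hm.1
  have := hA.to_subtype
  have h1 : m A = ∑' t : A, m {(t : ℝ)} := by
    have := measure_iUnion (μ := m) (f := fun t : A => {(t : ℝ)})
      (fun a b hab => by
        simp only [Function.onFun, Set.disjoint_singleton]
        exact fun h => hab (Subtype.ext h)) (fun t => measurableSet_singleton _)
    rw [← this]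
    congr 1
    ext x
    simp
  have h2 : (∑' t : A, m {(t : ℝ)}) ≠ ∞ := by rw [← h1]; exact measure_ne_top _ _
  have h3 : Summable fun t : A => m.real {(t : ℝ)} := ENNReal.summable_toReal h2
  have h4 : m.real A = ∑' t : A, m.real {(t : ℝ)} := by
    rw [measureReal_def, h1, ENNReal.tsum_toReal_eq (fun t => measure_ne_top _ _)]
    rfl
  have h5 : m.real Set.univ = m.real A := by
    have h6 : m Set.univ = m A := by
      apply le_antisymm _ (measure_mono (Set.subset_univ _))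
      rw [← Set.union_compl_self A]
      refine (measure_union_le _ _).trans ?_
      rw [h0, add_zero]
    rw [measureReal_def, h6, ← measureReal_def]
  have h7 := h3.hasSum
  rw [← h4, ← h5, mass T hT φ m hm] at h7
  obtain ⟨F, hF⟩ := (Metric.tendsto_atTop.mp h7) δ hδ
  refine ⟨F.map (Function.Embedding.subtype _), ?_⟩
  have h8 := hF F le_rfl
  rw [pyth T hT, Finset.sum_map]
  have h9 : ∑ t ∈ F, ‖PE T ((Function.Embedding.subtype _) t) φ‖ ^ 2 =
      ∑ t ∈ F, m.real {(t : ℝ)} := Finset.sum_congr rfl fun t _ => atom T hT φ m hm _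
  rw [h9]
  rw [Real.dist_eq, abs_lt] at h8
  linarith [h8.1]

end gen

/-- **FL-EIG** -/
theorem eig : Pool.Agent.H121.FL.S_eig := by
  intro ι _ T hT y m hm
  refine ⟨fun t => PE T t (dv y), fun t => PE_eig T t _, fun t x => ?_, fun A hA hm0 δ hδ =>
    compl T hT.sa (dv y) m hm A hA hm0 δ hδ⟩
  have h2 := ((innerSL ℂ (dv x)).continuous.tendsto _).comp (W_lim T hT.sa t (dv y))
  rw [innerSL_apply_apply, inner_dv] at h2
  refine h2.congr fun k => ?_
  rw [Function.comp_apply, innerSL_apply_apply, inner_dv]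
  rfl

end Pool.Agent.H113.FL
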